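import Pool.Agent.H9.SC.Mom

/-!
# The upper bound for lines meeting the edges of a geometric graph (MP_737bdd_co)

`f^1_{2,2}(m, n) ≤ b (b + 3)` whenever `1 ≤ m ≤ n b` and `m ≤ n.choose 2`: vertices on a convex curve,
edges between vertices at cyclic distance at most `b`.
-/

set_option autoImplicit false

open Finset Module

namespace Pool.Agent.H82.EU

open Pool.Agent.H68 Pool.Agent.H9.SC

/-- every line lies in the zero set of a nonconstant affine function -/
theorem line_eq (L : AffineSubspace ℝ (Pt 2)) (hL : IsFlat 1 L) :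
    ∃ α β c : ℝ, (α ≠ 0 ∨ β ≠ 0) ∧ ∀ x ∈ L, α * x 0 + β * x 1 = c := by
  obtain ⟨⟨p, hp⟩, hd⟩ := hL
  have hlt : L.direction < ⊤ := by
    rw [lt_top_iff_ne_top]
    intro h
    rw [h, finrank_top, finrank_euclideanSpace_fin] at hd
    omega
  obtain ⟨f, hf, hle⟩ := Submodule.exists_le_ker_of_lt_top _ hlt
  have hx : ∀ x : Pt 2, f x = f (EuclideanSpace.single 0 1) * x 0 +
      f (EuclideanSpace.single 1 1) * x 1 := by
    intro x
    have h1 : x = x 0 • (EuclideanSpace.single 0 1 : Pt 2) +
        x 1 • (EuclideanSpace.single 1 1 : Pt 2) := by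
      ext i
      fin_cases i <;> simp
    conv_lhs => rw [h1]
    rw [map_add, map_smul, map_smul, smul_eq_mul, smul_eq_mul]
    ring
  refine ⟨f (EuclideanSpace.single 0 1), f (EuclideanSpace.single 1 1), f p, ?_, ?_⟩
  · by_contra h
    push Not at h
    apply hf
    ext x
    rw [hx x, h.1, h.2]
    simp
  · intro x hxL
    rw [← hx x]
    have h2 : x -ᵥ p ∈ L.direction := AffineSubspace.vsub_mem_direction hxL hp
    have h3 := hle h2
    rw [LinearMap.mem_ker, vsub_eq_sub, map_sub] at h3
    linarith

/-- the affine function on the moment curve -/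
def gq (α β c : ℝ) (i : ℕ) : ℝ := α * i + β * (i : ℝ) ^ 2 - c

theorem met_sign {n : ℕ} {α β c : ℝ} {L : AffineSubspace ℝ (Pt 2)}
    (h : ∀ x ∈ L, α * x 0 + β * x 1 = c) {i j : Fin n} (hm : MeetsIdx (mom 2 n) L {i, j}) :
    gq α β c i * gq α β c j ≤ 0 := by
  obtain ⟨x, hxL, hx⟩ := hm
  have h1 : mom 2 n '' (({i, j} : Finset (Fin n)) : Set (Fin n)) = {mom 2 n i, mom 2 n j} := by
    rw [coe_pair, Set.image_pair]
  rw [h1, convexHull_pair] at hx
  obtain ⟨a, b, ha, hb, hab, rfl⟩ := hx
  have h2 := h _ hxL
  have h3 : α * (a • mom 2 n i + b • mom 2 n j : Pt 2) 0 +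
      β * (a • mom 2 n i + b • mom 2 n j : Pt 2) 1 =
      a * (α * (i : ℕ) + β * ((i : ℕ) : ℝ) ^ 2) + b * (α * (j : ℕ) + β * ((j : ℕ) : ℝ) ^ 2) := by
    simp only [mom, PiLp.add_apply, PiLp.smul_apply, smul_eq_mul, Fin.val_zero, Fin.val_one]
    ring
  rw [h3] at h2
  have h4 : a * gq α β c i + b * gq α β c j = 0 := by
    unfold gq
    have : c = a * c + b * c := by rw [← add_mul, hab, one_mul]
    linarith
  by_contra h5
  push Not at h5
  rcases pos_and_pos_or_neg_and_neg_of_mul_pos h5 with ⟨h6, h7⟩ | ⟨h6, h7⟩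
  · rcases eq_or_lt_of_le ha with h8 | h8
    · have : b = 1 := by linarith
      rw [← h8, this] at h4
      linarith
    · nlinarith [mul_pos h8 h6, mul_nonneg hb h7.le]
  · rcases eq_or_lt_of_le ha with h8 | h8
    · have : b = 1 := by linarith
      rw [← h8, this] at h4
      linarith
    · nlinarith [mul_pos h8 (neg_pos.2 h6), mul_nonneg hb (neg_pos.2 h7).le]

/-- an arc which contains neither `p` nor `q` is not met -/
theorem arc_count {n : ℕ} {G : ℕ → ℝ} {p q t : ℕ} (hpq : p ≤ q) (hq : q < n) (ht : t < n)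
    (h1 : ∀ i, p < i → i < q → G i < 0) (h2 : ∀ i, i < p → 0 < G i)
    (h3 : ∀ i, q < i → i < n → 0 < G i) :
    ((range n).filter fun s => G s * G ((s + t) % n) ≤ 0).card ≤ 2 * (t + 1) := by
  classical
  have hsub : ((range n).filter fun s => G s * G ((s + t) % n) ≤ 0) ⊆
      (range (t + 1)).image (fun u => (p + (n - u)) % n) ∪
      (range (t + 1)).image (fun u => (q + (n - u)) % n) := by
    intro s hs
    rw [mem_filter, mem_range] at hs
    obtain ⟨hsn, hs⟩ := hs
    -- the general fact
    have key : ∀ x, x < n → ∀ u, u ≤ t → (s + u = x ∨ s + u = x + n) → (x + (n - u)) % n = s := by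
      intro x hx u hu h
      rcases h with h | h
      · have : x + (n - u) = s + n := by omega
        rw [this, Nat.add_mod_right, Nat.mod_eq_of_lt hsn]
      · have : x + (n - u) = s := by omega
        rw [this, Nat.mod_eq_of_lt hsn]
    have hu : (∃ u, u ≤ t ∧ (s + u = p ∨ s + u = p + n)) ∨
        (∃ u, u ≤ t ∧ (s + u = q ∨ s + u = q + n)) := by
      by_contra hno
      push Not at hno
      obtain ⟨hp', hq'⟩ := hno
      rcases lt_or_ge s p with h4 | h4
      · -- left of p
        have h5 : s + t < p := by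
          by_contra h6
          exact (hp' (p - s) (by omega)).1 (by omega)
        rw [Nat.mod_eq_of_lt (by omega)] at hs
        exact absurd (mul_pos (h2 s h4) (h2 _ h5)) (not_lt.2 hs)
      · rcases lt_or_ge q s with h5 | h5
        · -- right of q
          rcases lt_or_ge (s + t) n with h6 | h6
          · rw [Nat.mod_eq_of_lt h6] at hs
            exact absurd (mul_pos (h3 s h5 hsn) (h3 _ (by omega) h6)) (not_lt.2 hs)
          · have h7 : s + t - n < p := by
              by_contra h8
              exact (hp' (p + n - s) (by omega)).2 (by omega)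
            have h8 : (s + t) % n = s + t - n := by
              rw [Nat.mod_eq_sub_mod h6, Nat.mod_eq_of_lt (by omega)]
            rw [h8] at hs
            exact absurd (mul_pos (h3 s h5 hsn) (h2 _ h7)) (not_lt.2 hs)
        · -- inside
          have h6 : p < s := by
            rcases eq_or_lt_of_le h4 with h7 | h7
            · exact absurd h7.symm (by simpa using (hp' 0 (Nat.zero_le _)).1)
            · exact h7
          have h7 : s < q := by
            rcases eq_or_lt_of_le h5 with h7 | h7
            · exact absurd h7 (by simpa using (hq' 0 (Nat.zero_le _)).1)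
            · exact h7
          have h8 : s + t < q := by
            by_contra h9
            exact (hq' (q - s) (by omega)).1 (by omega)
          rw [Nat.mod_eq_of_lt (by omega)] at hs
          exact absurd (mul_pos_of_neg_of_neg (h1 s h6 h7) (h1 _ (by omega) h8)) (not_lt.2 hs)
    rw [mem_union, mem_image, mem_image]
    rcases hu with ⟨u, hut, hu⟩ | ⟨u, hut, hu⟩
    · exact Or.inl ⟨u, mem_range.2 (by omega), key p (by omega) u hut hu⟩
    · exact Or.inr ⟨u, mem_range.2 (by omega), key q hq u hut hu⟩
  refine (card_le_card hsub).trans ((card_union_le _ _).trans ?_)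
  have e1 := card_image_le (s := range (t + 1)) (f := fun u => (p + (n - u)) % n)
  have e2 := card_image_le (s := range (t + 1)) (f := fun u => (q + (n - u)) % n)
  rw [card_range] at e1 e2
  omega

/-- interpolation -/
theorem gq_interp (α β c : ℝ) (p i q : ℕ) : ((q : ℝ) - p) * gq α β c i =
    ((q : ℝ) - i) * gq α β c p + ((i : ℝ) - p) * gq α β c q -
      β * ((q : ℝ) - i) * ((i : ℝ) - p) * ((q : ℝ) - p) := by
  unfold gq
  ring

/-- the count for one length, convex case -/
theorem count_conv {n t : ℕ} {α β c : ℝ} (hne : α ≠ 0 ∨ β ≠ 0) (hβ : 0 ≤ β) (ht : t < n) :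
    ((range n).filter fun s => gq α β c s * gq α β c ((s + t) % n) ≤ 0).card ≤ 2 * (t + 1) := by
  classical
  by_cases hI : ∃ i, i < n ∧ gq α β c i ≤ 0
  · -- the interval
    set I := (range n).filter fun i => gq α β c i ≤ 0 with hIdef
    have hIne : I.Nonempty := by
      obtain ⟨i, hi, h⟩ := hI
      exact ⟨i, mem_filter.2 ⟨mem_range.2 hi, h⟩⟩
    set p := I.min' hIne with hp
    set q := I.max' hIne with hq
    have hpI := I.min'_mem hIne
    have hqI := I.max'_mem hIne
    rw [← hp] at hpI
    rw [← hq] at hqI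
    have hpI' := mem_filter.1 hpI
    have hqI' := mem_filter.1 hqI
    have hpq : p ≤ q := I.min'_le q hqI
    refine arc_count (G := gq α β c) hpq (mem_range.1 hqI'.1) ht ?_ ?_ ?_
    · intro i h1 h2
      have h3 := gq_interp α β c p i q
      have h4 : (0 : ℝ) < (q : ℝ) - p := by
        have : (p : ℝ) < q := by exact_mod_cast h1.trans h2
        linarith
      have h5 : (0 : ℝ) < (q : ℝ) - i := by
        have : (i : ℝ) < q := by exact_mod_cast h2
        linarith
      have h6 : (0 : ℝ) < (i : ℝ) - p := by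
        have : (p : ℝ) < i := by exact_mod_cast h1
        linarith
      by_contra h7
      push Not at h7
      have h8 : 0 ≤ ((q : ℝ) - p) * gq α β c i := mul_nonneg h4.le h7
      have h9 : ((q : ℝ) - i) * gq α β c p ≤ 0 := mul_nonpos_of_nonneg_of_nonpos h5.le hpI'.2
      have h10 : ((i : ℝ) - p) * gq α β c q ≤ 0 := mul_nonpos_of_nonneg_of_nonpos h6.le hqI'.2
      have h11 : 0 ≤ β * ((q : ℝ) - i) * ((i : ℝ) - p) * ((q : ℝ) - p) := by positivity
      have h12 : ((q : ℝ) - i) * gq α β c p = 0 := by linarith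
      have h13 : ((i : ℝ) - p) * gq α β c q = 0 := by linarith
      have h14 : β * ((q : ℝ) - i) * ((i : ℝ) - p) * ((q : ℝ) - p) = 0 := by linarith
      have h15 : gq α β c p = 0 := (mul_eq_zero.1 h12).resolve_left h5.ne'
      have h16 : gq α β c q = 0 := (mul_eq_zero.1 h13).resolve_left h6.ne'
      have h17 : β = 0 := by
        rcases mul_eq_zero.1 h14 with h | h
        · rcases mul_eq_zero.1 h with h | h
          · rcases mul_eq_zero.1 h with h | h
            · exact h
            · exact absurd h h5.ne'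
          · exact absurd h h6.ne'
        · exact absurd h h4.ne'
      have h18 : α * ((q : ℝ) - p) = 0 := by
        unfold gq at h15 h16
        rw [h17] at h15 h16
        linarith
      have h19 : α = 0 := (mul_eq_zero.1 h18).resolve_right h4.ne'
      rcases hne with h | h
      · exact h h19
      · exact h h17
    · intro i h1
      by_contra h2
      push Not at h2
      have h3 : i ∈ I := mem_filter.2 ⟨mem_range.2 (by
        have := mem_range.1 hpI'.1
        omega), h2⟩
      have := I.min'_le i h3
      omega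
    · intro i h1 h1'
      by_contra h2
      push Not at h2
      have h3 : i ∈ I := mem_filter.2 ⟨mem_range.2 h1', h2⟩
      have := I.le_max' i h3
      omega
  · push Not at hI
    have : ((range n).filter fun s => gq α β c s * gq α β c ((s + t) % n) ≤ 0) = ∅ := by
      rw [filter_eq_empty_iff]
      intro s hs
      rw [mem_range] at hs
      rw [not_le]
      exact mul_pos (hI s hs) (hI _ (Nat.mod_lt _ (by omega)))
    rw [this, card_empty]
    exact Nat.zero_le _

/-- the count for one length -/
theorem count_len {n t : ℕ} {α β c : ℝ} (hne : α ≠ 0 ∨ β ≠ 0) (ht : t < n) :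
    ((range n).filter fun s => gq α β c s * gq α β c ((s + t) % n) ≤ 0).card ≤ 2 * (t + 1) := by
  rcases le_total 0 β with h | h
  · exact count_conv hne h ht
  · have h1 := count_conv (n := n) (t := t) (α := -α) (β := -β) (c := -c)
      (by rcases hne with h | h
          · exact Or.inl (neg_ne_zero.2 h)
          · exact Or.inr (neg_ne_zero.2 h)) (by linarith) ht
    have h2 : ∀ i, gq (-α) (-β) (-c) i = - gq α β c i := by
      intro i
      unfold gq
      ring
    simp only [h2, neg_mul_neg] at h1
    exact h1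

/-- the edge of an arc -/
def en {n : ℕ} (hn : 0 < n) (x : ℕ × ℕ) : Finset (Fin n) :=
  {⟨x.1 % n, Nat.mod_lt _ hn⟩, ⟨(x.1 + x.2) % n, Nat.mod_lt _ hn⟩}

/-- the arcs of length at most `b` -/
def arcs (n b : ℕ) : Finset (ℕ × ℕ) := range n ×ˢ Icc 1 (min b (n - 1))

theorem mem_arcs {n b : ℕ} {x : ℕ × ℕ} (hx : x ∈ arcs n b) :
    x.1 < n ∧ 1 ≤ x.2 ∧ x.2 ≤ b ∧ x.2 < n := by
  unfold arcs at hx
  rw [mem_product, mem_range, mem_Icc] at hx
  omega

theorem en_card {n b : ℕ} (hn : 0 < n) {x : ℕ × ℕ} (hx : x ∈ arcs n b) : (en hn x).card = 2 := by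
  obtain ⟨h1, h2, -, h4⟩ := mem_arcs hx
  unfold en
  apply card_pair
  intro h
  have h5 : x.1 % n = (x.1 + x.2) % n := congrArg Fin.val h
  rw [Nat.mod_eq_of_lt h1] at h5
  rcases lt_or_ge (x.1 + x.2) n with h6 | h6
  · rw [Nat.mod_eq_of_lt h6] at h5
    omega
  · rw [Nat.mod_eq_sub_mod h6, Nat.mod_eq_of_lt (by omega)] at h5
    omega

/-- the family of all the edges of cyclic length at most `b` -/
noncomputable def fam {n : ℕ} (hn : 0 < n) (b : ℕ) : Finset (Finset (Fin n)) :=
  (arcs n b).image (en hn)

theorem fam_card_two {n b : ℕ} (hn : 0 < n) {e : Finset (Fin n)} (he : e ∈ fam hn b) :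
    e.card = 2 := by
  unfold fam at he
  rw [mem_image] at he
  obtain ⟨x, hx, rfl⟩ := he
  exact en_card hn hx

theorem mod_two {n x : ℕ} (hx : x < 2 * n) : x % n = x ∧ x < n ∨ x % n = x - n ∧ n ≤ x := by
  rcases lt_or_ge x n with h | h
  · exact Or.inl ⟨Nat.mod_eq_of_lt h, h⟩
  · right
    refine ⟨?_, h⟩
    rw [Nat.mod_eq_sub_mod h, Nat.mod_eq_of_lt (by omega)]

theorem fam_card {n m b : ℕ} (hn : 0 < n) (hb : m ≤ n * b) (hm : m ≤ n.choose 2) :
    m ≤ (fam hn b).card := by
  classical
  rcases lt_or_ge (2 * b) n with h | h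
  · -- injective
    have hinj : Set.InjOn (en hn) (arcs n b : Set (ℕ × ℕ)) := by
      rintro ⟨s, t⟩ hx ⟨s', t'⟩ hy hxy
      obtain ⟨h1, h2, h3, h4⟩ := mem_arcs hx
      obtain ⟨h1', h2', h3', h4'⟩ := mem_arcs hy
      dsimp only at h1 h2 h3 h4 h1' h2' h3' h4'
      unfold en at hxy
      dsimp only at hxy
      have e1 : (⟨s % n, Nat.mod_lt _ hn⟩ : Fin n) ∈
          ({⟨s' % n, Nat.mod_lt _ hn⟩, ⟨(s' + t') % n, Nat.mod_lt _ hn⟩} : Finset (Fin n)) := by
        rw [← hxy]
        exact mem_insert_self _ _
      have e2 : (⟨(s + t) % n, Nat.mod_lt _ hn⟩ : Fin n) ∈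
          ({⟨s' % n, Nat.mod_lt _ hn⟩, ⟨(s' + t') % n, Nat.mod_lt _ hn⟩} : Finset (Fin n)) := by
        rw [← hxy]
        exact mem_insert_of_mem (mem_singleton_self _)
      rw [mem_insert, mem_singleton, Fin.mk.injEq, Fin.mk.injEq] at e1 e2
      rw [Nat.mod_eq_of_lt h1, Nat.mod_eq_of_lt h1'] at e1
      rw [Nat.mod_eq_of_lt h1'] at e2
      have m1 := mod_two (x := s + t) (n := n) (by omega)
      have m2 := mod_two (x := s' + t') (n := n) (by omega)
      have : s = s' ∧ t = t' := by omega
      rw [this.1, this.2]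
    unfold fam
    rw [card_image_of_injOn hinj]
    unfold arcs
    rw [card_product, card_range, Nat.card_Icc]
    have : min b (n - 1) + 1 - 1 = b := by omega
    rw [this]
    exact hb
  · -- all pairs
    have hsub : powersetCard 2 (univ : Finset (Fin n)) ⊆ fam hn b := by
      intro e he
      rw [mem_powersetCard] at he
      obtain ⟨i, j, hij, rfl⟩ := card_eq_two.1 he.2
      -- the ordered form
      have main : ∀ i j : Fin n, (i : ℕ) < j → ({i, j} : Finset (Fin n)) ∈ fam hn b := by
        intro i j hlt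
        unfold fam
        rw [mem_image]
        have hi := i.2
        have hj := j.2
        rcases le_or_gt ((j : ℕ) - i) b with h1 | h1
        · refine ⟨(i, j - i), ?_, ?_⟩
          · unfold arcs
            rw [mem_product, mem_range, mem_Icc]
            dsimp only
            omega
          · unfold en
            dsimp only
            congr 1
            · ext
              exact Nat.mod_eq_of_lt hi
            · congr 1
              ext
              dsimp only
              rw [show (i : ℕ) + (j - i) = j by omega]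
              exact Nat.mod_eq_of_lt hj
        · refine ⟨(j, n - (j - i)), ?_, ?_⟩
          · unfold arcs
            rw [mem_product, mem_range, mem_Icc]
            dsimp only
            omega
          · unfold en
            dsimp only
            rw [pair_comm]
            congr 1
            · ext
              dsimp only
              rw [show (j : ℕ) + (n - (j - i)) = i + n by omega, Nat.add_mod_right]
              exact Nat.mod_eq_of_lt hi
            · congr 1
              ext
              exact Nat.mod_eq_of_lt hj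
      rcases lt_trichotomy (i : ℕ) j with h1 | h1 | h1
      · exact main i j h1
      · exact absurd (Fin.ext h1) hij
      · rw [pair_comm]
        exact main j i h1
    have := card_le_card hsub
    rw [card_powersetCard, card_univ, Fintype.card_fin] at this
    exact hm.trans this

/-- the number of the met arcs -/
theorem met_arcs {n b : ℕ} {α β c : ℝ} (hne : α ≠ 0 ∨ β ≠ 0) :
    ((arcs n b).filter fun x => gq α β c x.1 * gq α β c ((x.1 + x.2) % n) ≤ 0).card ≤
      b * (b + 3) := by
  classical
  have h1 : ((arcs n b).filter fun x => gq α β c x.1 * gq α β c ((x.1 + x.2) % n) ≤ 0).card =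
      ∑ t ∈ Icc 1 (min b (n - 1)),
        ((range n).filter fun s => gq α β c s * gq α β c ((s + t) % n) ≤ 0).card := by
    simp only [card_filter]
    unfold arcs
    rw [sum_product_right]
  rw [h1]
  have h2 : ∀ t ∈ Icc 1 (min b (n - 1)),
      ((range n).filter fun s => gq α β c s * gq α β c ((s + t) % n) ≤ 0).card ≤ 2 * (t + 1) := by
    intro t ht
    rw [mem_Icc] at ht
    exact count_len hne (by omega)
  refine (sum_le_sum h2).trans ?_
  have h3 : ∑ t ∈ Icc 1 (min b (n - 1)), 2 * (t + 1) ≤ ∑ t ∈ Icc 1 b, 2 * (t + 1) :=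
    sum_le_sum_of_subset (Icc_subset_Icc le_rfl (min_le_left _ _))
  refine h3.trans (le_of_eq ?_)
  induction b with
  | zero => simp
  | succ b ih =>
    rw [sum_Icc_succ_top (by omega)]
    have : ∑ t ∈ Icc 1 b, 2 * (t + 1) = b * (b + 3) := by
      clear ih h1 h2 h3
      induction b with
      | zero => simp
      | succ b ih =>
        rw [sum_Icc_succ_top (by omega), ih]
        ring
    rw [this]
    ring

theorem upper_nat {n m b : ℕ} (h1 : 1 ≤ m) (hb : m ≤ n * b) (hm : m ≤ n.choose 2) :
    fval 2 2 1 m n ≤ b * (b + 3) := by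
  classical
  have hn : 0 < n := by
    rcases Nat.eq_zero_or_pos n with h | h
    · subst h
      simp at hb
      omega
    · exact h
  obtain ⟨F, hF, hFc⟩ := exists_subset_card_eq (fam_card hn hb hm)
  refine fval_le (mkHyp (by norm_num) (by norm_num) (mom 2 n) (mom_GP 2 n) F
    (fun e he => fam_card_two hn (hF he))) (mkHyp_card_V ..) (by rw [mkHyp_card_E]; exact hFc) ?_
  intro L hL
  obtain ⟨α, β, c, hne, hLx⟩ := line_eq L hL
  rw [mkHyp_numMet]
  refine le_trans ?_ (met_arcs (n := n) (b := b) (α := α) (β := β) (c := c) hne)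
  have hsub : (F.filter fun e => MeetsIdx (mom 2 n) L e) ⊆
      ((arcs n b).filter fun x => gq α β c x.1 * gq α β c ((x.1 + x.2) % n) ≤ 0).image (en hn) := by
    intro e he
    rw [mem_filter] at he
    have h2 := hF he.1
    unfold fam at h2
    rw [mem_image] at h2 ⊢
    obtain ⟨x, hx, rfl⟩ := h2
    refine ⟨x, mem_filter.2 ⟨hx, ?_⟩, rfl⟩
    have h3 := met_sign hLx he.2
    dsimp only at h3
    rw [Nat.mod_eq_of_lt (mem_arcs hx).1] at h3
    exact h3
  have h9 := (card_le_card hsub).trans (card_image_le (f := en hn))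
  convert h9

theorem upper (n m : ℕ) (h1 : 1 ≤ m) (hm : m ≤ n.choose 2) :
    (fval 2 2 1 m n : ℝ) ≤ ((m : ℝ) / n + 1) * ((m : ℝ) / n + 4) := by
  have hn : 0 < n := by
    rcases Nat.eq_zero_or_pos n with h | h
    · subst h
      simp at hm
      omega
    · exact h
  have hn' : (0 : ℝ) < n := by exact_mod_cast hn
  set b := ⌈(m : ℝ) / n⌉₊ with hb
  have h2 : (m : ℝ) / n ≤ b := Nat.le_ceil _
  have h3 : (b : ℝ) < (m : ℝ) / n + 1 := Nat.ceil_lt_add_one (by positivity)
  have h4 : m ≤ n * b := by
    have h5 : (m : ℝ) ≤ n * b := by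
      rw [div_le_iff₀ hn'] at h2
      linarith
    exact_mod_cast h5
  have h5 := upper_nat h1 h4 hm
  have h6 : (fval 2 2 1 m n : ℝ) ≤ b * (b + 3) := by exact_mod_cast h5
  have h7 : (0 : ℝ) ≤ b := Nat.cast_nonneg _
  nlinarith

end Pool.Agent.H82.EU
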